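import Pool.Agent.helper10.OM.SpecH

/-!
# OM, row HD4: among any four positive rationals two have a quotient which is a product of two good numbers
-/

set_option autoImplicit false

namespace Pool.Agent.OM

open Finset Real Pool.Agent.AT Pool.Agent.helper85.FC

/-- The number of quotients of divisors of `n`. -/
theorem HD4_QF (n : ℕ) (hn : n ≠ 0) : #(QF n.divisors) ≤ 2 ^ #n.primeFactors * #n.divisors := by
  classical
  set CP : Finset (ℕ × ℕ) := (n.divisors ×ˢ n.divisors).filter fun p => Nat.Coprime p.1 p.2 with hCP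
  have h1 : QF n.divisors ⊆ CP.image fun p => (p.1 : ℚ) / p.2 := by
    intro q hq
    unfold QF at hq
    rw [mem_image] at hq
    obtain ⟨⟨d, d'⟩, hp, rfl⟩ := hq
    rw [mem_product] at hp
    obtain ⟨hd, hd'⟩ := hp
    have hd0 : 0 < d := Nat.pos_of_mem_divisors hd
    have hg : 0 < Nat.gcd d d' := Nat.gcd_pos_of_pos_left _ hd0
    obtain ⟨a, b, hab, ha, hb⟩ := Nat.exists_coprime d d'
    have had : a ∣ d := ⟨_, ha⟩
    have hbd : b ∣ d' := ⟨_, hb⟩
    rw [mem_image]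
    refine ⟨(a, b), ?_, ?_⟩
    · rw [hCP, mem_filter, mem_product, Nat.mem_divisors, Nat.mem_divisors]
      exact ⟨⟨⟨had.trans (Nat.dvd_of_mem_divisors hd), hn⟩,
        ⟨hbd.trans (Nat.dvd_of_mem_divisors hd'), hn⟩⟩, hab⟩
    · have hgq : ((Nat.gcd d d' : ℕ) : ℚ) ≠ 0 := by exact_mod_cast hg.ne'
      have e1 : (d : ℚ) = a * (Nat.gcd d d' : ℕ) := by exact_mod_cast ha
      have e2 : (d' : ℚ) = b * (Nat.gcd d d' : ℕ) := by exact_mod_cast hb
      change (a : ℚ) / b = (d : ℚ) / d'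
      rw [e1, e2, mul_div_mul_right _ _ hgq]
  have h2 : #CP ≤ #(n.primeFactors.powerset ×ˢ n.divisors) := by
    refine Finset.card_le_card_of_injOn (fun p => (p.1.primeFactors, p.1 * p.2)) ?_ ?_
    · intro p hp
      rw [mem_coe, hCP, mem_filter, mem_product, Nat.mem_divisors, Nat.mem_divisors] at hp
      obtain ⟨⟨⟨ha, _⟩, ⟨hb, _⟩⟩, hab⟩ := hp
      rw [mem_coe, mem_product, mem_powerset, Nat.mem_divisors]
      exact ⟨Nat.primeFactors_mono ha hn, Nat.Coprime.mul_dvd_of_dvd_of_dvd hab ha hb, hn⟩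
    · rintro ⟨a, b⟩ hp ⟨a', b'⟩ hp' h
      rw [mem_coe, hCP, mem_filter, mem_product, Nat.mem_divisors, Nat.mem_divisors] at hp hp'
      obtain ⟨⟨⟨ha, _⟩, ⟨hb, _⟩⟩, hab⟩ := hp
      obtain ⟨⟨⟨ha', _⟩, ⟨hb', _⟩⟩, hab'⟩ := hp'
      simp only [Prod.mk.injEq] at h ha hb hab ha' hb' hab'
      obtain ⟨e1, e2⟩ := h
      have ha0 : a ≠ 0 := ne_zero_of_dvd_ne_zero hn ha
      have hb0 : b ≠ 0 := ne_zero_of_dvd_ne_zero hn hb
      have ha0' : a' ≠ 0 := ne_zero_of_dvd_ne_zero hn ha'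
      have hb0' : b' ≠ 0 := ne_zero_of_dvd_ne_zero hn hb'
      have c1 : Nat.Coprime a b' := by
        rw [← Nat.disjoint_primeFactors ha0 hb0', e1, Nat.disjoint_primeFactors ha0' hb0']
        exact hab'
      have c2 : Nat.Coprime a' b := by
        rw [← Nat.disjoint_primeFactors ha0' hb0, ← e1, Nat.disjoint_primeFactors ha0 hb0]
        exact hab
      have d1 : a ∣ a' := c1.dvd_of_dvd_mul_right (e2 ▸ dvd_mul_right a b)
      have d2 : a' ∣ a := c2.dvd_of_dvd_mul_right (e2 ▸ dvd_mul_right a' b')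
      have e3 : a = a' := Nat.dvd_antisymm d1 d2
      subst e3
      have e4 : b = b' := Nat.eq_of_mul_eq_mul_left (Nat.pos_of_ne_zero ha0) e2
      rw [e4]
  calc #(QF n.divisors) ≤ #(CP.image fun p => (p.1 : ℚ) / p.2) := card_le_card h1
    _ ≤ #CP := card_image_le
    _ ≤ #(n.primeFactors.powerset ×ˢ n.divisors) := h2
    _ = 2 ^ #n.primeFactors * #n.divisors := by rw [card_product, card_powerset]

theorem HD4_card (K N : ℕ) (hK : K ≠ 0) (hN : N ≠ 0) :
    #(K ^ N).divisors = ∏ p ∈ K.primeFactors, (N * K.factorization p + 1) := by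
  rw [Nat.card_divisors (pow_ne_zero N hK), Nat.primeFactors_pow _ hN]
  refine Finset.prod_congr rfl fun p _ => ?_
  rw [Nat.factorization_pow]
  rfl

theorem HD4_ratio (K N : ℕ) (hK : K ≠ 0) (hN : N ≠ 0) :
    N ^ #K.primeFactors * #(K ^ (N + 2)).divisors ≤ (N + 2) ^ #K.primeFactors * #(K ^ N).divisors := by
  rw [HD4_card K N hK hN, HD4_card K (N + 2) hK (by omega), ← Finset.prod_const, ← Finset.prod_const,
    ← Finset.prod_mul_distrib, ← Finset.prod_mul_distrib]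
  refine Finset.prod_le_prod (fun _ _ => Nat.zero_le _) fun p _ => ?_
  nlinarith

theorem HD4_lower (K N : ℕ) (hK : K ≠ 0) (h2 : 2 ∣ K) : N + 1 ≤ #(K ^ N).divisors := by
  classical
  have h1 : (range (N + 1)).image (fun j => 2 ^ j) ⊆ (K ^ N).divisors := by
    intro d hd
    rw [mem_image] at hd
    obtain ⟨j, hj, rfl⟩ := hd
    rw [mem_range] at hj
    rw [Nat.mem_divisors]
    exact ⟨(pow_dvd_pow 2 (by omega)).trans (pow_dvd_pow_of_dvd h2 N), pow_ne_zero N hK⟩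
  have h3 := card_le_card h1
  rw [card_image_of_injective _ (Nat.pow_right_injective (le_refl 2)), card_range] at h3
  exact h3

theorem HD4_tends (w : ℕ) (δ : ℝ) (hδ : 0 < δ) : ∀ᶠ N : ℕ in Filter.atTop,
    1 - δ ≤ ((N : ℝ) / (N + 2)) ^ w := by
  have h1 : Filter.Tendsto (fun N : ℕ => ((N : ℝ) / (N + 2))) Filter.atTop (nhds 1) := by
    have h2 : Filter.Tendsto (fun N : ℕ => 1 - 2 / ((N : ℝ) + 2)) Filter.atTop (nhds (1 - 0)) := by
      refine Filter.Tendsto.sub tendsto_const_nhds ?_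
      refine Filter.Tendsto.div_atTop tendsto_const_nhds ?_
      exact Filter.tendsto_atTop_add_const_right _ _ tendsto_natCast_atTop_atTop
    rw [sub_zero] at h2
    refine h2.congr fun N => ?_
    have h3 : (N : ℝ) + 2 ≠ 0 := by positivity
    field_simp
    ring
  have h4 := h1.pow w
  rw [one_pow] at h4
  filter_upwards [h4.eventually (lt_mem_nhds (by linarith : 1 - δ < 1))] with N hN using hN.le

theorem HD4 (h1 : HGX_stmt) : HD4_stmt := by
  classical
  intro hOMG ε hε hε2 x hx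
  obtain ⟨η, hη, hF⟩ := hOMG ε hε
  obtain ⟨hGX, hinv, -⟩ := h1
  -- numerators and denominators
  obtain ⟨u, v, hu, hv, hxuv⟩ : ∃ u v : Fin 4 → ℕ, (∀ i, 0 < u i) ∧ (∀ i, 0 < v i) ∧
      ∀ i, x i = (u i : ℚ) / v i := by
    refine ⟨fun i => (x i).num.toNat, fun i => (x i).den, fun i => ?_, fun i => (x i).pos, fun i => ?_⟩
    · have h := Rat.num_pos.mpr (hx i)
      change 0 < (x i).num.toNat
      omega
    · have h := Rat.num_pos.mpr (hx i)
      have h2 : (((x i).num.toNat : ℕ) : ℤ) = (x i).num := Int.toNat_of_nonneg h.le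
      have h3 : (((x i).num.toNat : ℕ) : ℚ) = ((x i).num : ℚ) :=
        (Int.cast_natCast _).symm.trans (congrArg (fun z : ℤ => (z : ℚ)) h2)
      rw [h3]
      exact (Rat.num_div_den (x i)).symm
  obtain ⟨K, hK, h2K, huK, hvK⟩ : ∃ K : ℕ, K ≠ 0 ∧ 2 ∣ K ∧ (∀ i, u i ∣ K) ∧ ∀ i, v i ∣ K := by
    refine ⟨2 * ∏ i, (u i * v i), ?_, dvd_mul_right _ _, fun i => ?_, fun i => ?_⟩
    · refine mul_ne_zero two_ne_zero (Finset.prod_ne_zero_iff.mpr fun i _ => ?_)
      exact mul_ne_zero (hu i).ne' (hv i).ne'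
    · exact ((dvd_mul_right (u i) (v i)).trans (Finset.dvd_prod_of_mem (fun i => u i * v i) (mem_univ i))).trans
        (dvd_mul_left _ _)
    · exact ((dvd_mul_left (v i) (u i)).trans (Finset.dvd_prod_of_mem (fun i => u i * v i) (mem_univ i))).trans
        (dvd_mul_left _ _)
  set w : ℕ := #K.primeFactors with hw
  set δ : ℝ := (1 / 12 - ε) / 2 with hδ
  have hδ0 : 0 < δ := by rw [hδ]; linarith
  obtain ⟨N₁, hN₁⟩ := Filter.eventually_atTop.mp (HD4_tends w δ hδ0)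
  obtain ⟨N₂, hN₂⟩ := exists_nat_ge ((2 : ℝ) ^ w / η)
  obtain ⟨N, hNdef⟩ : ∃ N : ℕ, N = N₁ + N₂ + 1 := ⟨_, rfl⟩
  have hN0 : N ≠ 0 := by omega
  have hn0 : K ^ (N + 2) ≠ 0 := pow_ne_zero _ hK
  have hm0 : K ^ N ≠ 0 := pow_ne_zero _ hK
  set F : Finset ℕ := (K ^ (N + 2)).divisors with hFdef
  set D : Finset ℕ := (K ^ N).divisors with hDdef
  have hFpos : ∀ s ∈ F, 0 < s := fun s hs => Nat.pos_of_mem_divisors hs
  have hFcard : (N : ℝ) + 3 ≤ #F := by
    have h := HD4_lower K (N + 2) hK h2K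
    have h' : ((N + 2 + 1 : ℕ) : ℝ) ≤ ((#F : ℕ) : ℝ) := by exact_mod_cast h
    push_cast at h'
    linarith
  have hF0 : (0 : ℝ) < #F := by
    have : (0 : ℝ) ≤ N := Nat.cast_nonneg N
    linarith
  have hD : (1 - δ) * (#F : ℝ) ≤ #D := by
    have h2 := hN₁ N (by omega)
    have h3 : ((N ^ w * #F : ℕ) : ℝ) ≤ (((N + 2) ^ w * #D : ℕ) : ℝ) := by
      exact_mod_cast HD4_ratio K N hK hN0
    push_cast at h3
    have h4 : (0 : ℝ) < ((N : ℝ) + 2) ^ w := by positivity
    have h5 : ((N : ℝ) / (N + 2)) ^ w * #F ≤ #D := by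
      rw [div_pow, div_mul_eq_mul_div, div_le_iff₀ h4]
      linarith
    exact (mul_le_mul_of_nonneg_right h2 hF0.le).trans h5
  -- quotients
  have hQ : (#(QF F) : ℝ) ≤ η * (#F : ℝ) ^ 2 := by
    have h2 : ((#(QF F) : ℕ) : ℝ) ≤ ((2 ^ #(K ^ (N + 2)).primeFactors * #F : ℕ) : ℝ) := by
      exact_mod_cast HD4_QF _ hn0
    rw [Nat.primeFactors_pow _ (by omega), ← hw] at h2
    push_cast at h2
    have h3 : (2 : ℝ) ^ w ≤ η * #F := by
      have h4 : (2 : ℝ) ^ w / η ≤ #F := by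
        have h5 : (N₂ : ℝ) ≤ N := by
          exact_mod_cast (by omega : N₂ ≤ N)
        linarith
      rw [div_le_iff₀ hη] at h4
      linarith
    calc (#(QF F) : ℝ) ≤ (2 : ℝ) ^ w * #F := h2
      _ ≤ η * #F * #F := mul_le_mul_of_nonneg_right h3 hF0.le
      _ = η * (#F : ℝ) ^ 2 := by ring
  have hG := hF F hFpos hQ
  -- the sets `A i`
  set A : Fin 4 → Finset (ℕ × ℕ) := fun i =>
    (F ×ˢ F).filter fun p => GoodX ε ((p.1 : ℚ) * x i / p.2) with hA
  have hmulF : ∀ t ∈ D, ∀ k : ℕ, k ∣ K → k * t ∈ F := by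
    intro t ht k hk
    rw [hFdef, Nat.mem_divisors]
    refine ⟨?_, hn0⟩
    have h2 : k * t ∣ K * K ^ N := mul_dvd_mul hk (Nat.dvd_of_mem_divisors ht)
    refine h2.trans ?_
    rw [← pow_succ']
    exact pow_dvd_pow K (by omega)
  have hAcard : ∀ i, (#F : ℝ) ^ 2 / 4 < #(A i) := by
    intro i
    set C : Finset (ℕ × ℕ) := (D ×ˢ F).filter fun p => GQ ε (u i * p.1) p.2 with hC
    set T : Finset ℕ := D.image fun t => u i * t with hT
    have hTF : T ⊆ F := by
      intro s hs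
      rw [hT, mem_image] at hs
      obtain ⟨t, ht, rfl⟩ := hs
      exact hmulF t ht _ (huK i)
    have hTcard : #T = #D :=
      card_image_of_injective _ fun a b hab => Nat.eq_of_mul_eq_mul_left (hu i) hab
    have hsub : (F ×ˢ F).filter (fun p => GQ ε p.1 p.2) ⊆
        (C.image fun p => (u i * p.1, p.2)) ∪ ((F \ T) ×ˢ F) := by
      rintro ⟨s, s'⟩ hp
      rw [mem_filter, mem_product] at hp
      obtain ⟨⟨hs, hs'⟩, hg⟩ := hp
      rw [mem_union]
      by_cases hsT : s ∈ T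
      · left
        rw [hT, mem_image] at hsT
        obtain ⟨t, ht, rfl⟩ := hsT
        rw [mem_image]
        refine ⟨(t, s'), ?_, rfl⟩
        rw [hC, mem_filter, mem_product]
        exact ⟨⟨ht, hs'⟩, hg⟩
      · right
        rw [mem_product, mem_sdiff]
        exact ⟨⟨hs, hsT⟩, hs'⟩
    have hcard1 : #((F ×ˢ F).filter fun p => GQ ε p.1 p.2) ≤ #C + (#F - #D) * #F := by
      refine (card_le_card hsub).trans ((card_union_le _ _).trans (add_le_add card_image_le ?_))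
      rw [card_product, card_sdiff_of_subset hTF, hTcard]
    have hCA : #C ≤ #(A i) := by
      refine Finset.card_le_card_of_injOn (fun p => (v i * p.1, p.2)) ?_ ?_
      · rintro ⟨t, s'⟩ hp
        rw [mem_coe, hC, mem_filter, mem_product] at hp
        obtain ⟨⟨ht, hs'⟩, hg⟩ := hp
        simp only at ht hs' hg
        rw [mem_coe, hA, mem_filter, mem_product]
        refine ⟨⟨hmulF t ht _ (hvK i), hs'⟩, ?_⟩
        have ht0 : 0 < t := Nat.pos_of_mem_divisors ht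
        have h3 := (hGX ε (u i * t) s' (Nat.mul_pos (hu i) ht0) (hFpos s' hs')).mp hg
        have hv0 : (v i : ℚ) ≠ 0 := by exact_mod_cast (hv i).ne'
        have h4 : (((v i * t : ℕ) : ℕ) : ℚ) * x i / s' = ((u i * t : ℕ) : ℚ) / s' := by
          rw [hxuv i]
          push_cast
          field_simp
        change GoodX ε (((v i * t : ℕ) : ℚ) * x i / s')
        rw [h4]
        exact h3
      · rintro ⟨t, s⟩ _ ⟨t', s'⟩ _ h
        simp only [Prod.mk.injEq] at h
        rw [Nat.eq_of_mul_eq_mul_left (hv i) h.1, h.2]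
    have hDF : #D ≤ #F := hTcard ▸ card_le_card hTF
    have h5 : ((#((F ×ˢ F).filter fun p => GQ ε p.1 p.2) : ℕ) : ℝ) ≤
        ((#(A i) + (#F - #D) * #F : ℕ) : ℝ) := by
      exact_mod_cast hcard1.trans (Nat.add_le_add_right hCA _)
    rw [Nat.cast_add, Nat.cast_mul, Nat.cast_sub hDF] at h5
    have h6 : ((#F : ℝ) - #D) * #F ≤ δ * #F * #F :=
      mul_le_mul_of_nonneg_right (by linarith) hF0.le
    have h7 : (0 : ℝ) < (#F : ℝ) ^ 2 := by positivity
    have h8 : (1 / 3 - ε) * (#F : ℝ) ^ 2 ≤ #(A i) + δ * (#F : ℝ) ^ 2 := by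
      calc (1 / 3 - ε) * (#F : ℝ) ^ 2 ≤ _ := hG
        _ ≤ (#(A i) : ℝ) + ((#F : ℝ) - #D) * #F := h5
        _ ≤ #(A i) + δ * (#F : ℝ) ^ 2 := by nlinarith
    have h9 : 1 / 3 - ε - δ = 1 / 4 + δ := by rw [hδ]; ring
    have h10 : (1 / 4 + δ) * (#F : ℝ) ^ 2 ≤ #(A i) := by
      rw [← h9]
      linarith
    nlinarith
  -- two of the four sets meet
  have hmeet : ∃ i j : Fin 4, i ≠ j ∧ ¬ Disjoint (A i) (A j) := by
    by_contra hcon
    have hdis : ∀ i ∈ (univ : Finset (Fin 4)), ∀ j ∈ (univ : Finset (Fin 4)), i ≠ j →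
        Disjoint (A i) (A j) := by
      intro i _ j _ hij
      by_contra h
      exact hcon ⟨i, j, hij, h⟩
    have h2 := Finset.card_biUnion hdis
    have h3 : #((univ : Finset (Fin 4)).biUnion A) ≤ #(F ×ˢ F) := by
      apply card_le_card
      intro p hp
      rw [mem_biUnion] at hp
      obtain ⟨i, _, hi⟩ := hp
      exact (mem_filter.mp hi).1
    rw [h2, card_product] at h3
    have h4 : ((∑ i, #(A i) : ℕ) : ℝ) ≤ ((#F * #F : ℕ) : ℝ) := by exact_mod_cast h3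
    push_cast at h4
    rw [Fin.sum_univ_four] at h4
    have a0 := hAcard 0
    have a1 := hAcard 1
    have a2 := hAcard 2
    have a3 := hAcard 3
    nlinarith
  obtain ⟨i, j, hij, hnd⟩ := hmeet
  obtain ⟨p, hpi, hpj⟩ := Finset.not_disjoint_iff.mp hnd
  rw [hA, mem_filter, mem_product] at hpi hpj
  refine ⟨i, j, hij, (p.1 : ℚ) * x i / p.2, ((p.1 : ℚ) * x j / p.2)⁻¹, hpi.2,
    hinv _ _ hpj.2, ?_⟩
  have hp1 : (p.1 : ℚ) ≠ 0 := by
    have := hFpos _ hpi.1.1
    exact_mod_cast this.ne'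
  have hp2 : (p.2 : ℚ) ≠ 0 := by
    have := hFpos _ hpi.1.2
    exact_mod_cast this.ne'
  have hxj : x j ≠ 0 := (hx j).ne'
  field_simp

end Pool.Agent.OM
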